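import Mathlib
import Pool.Agent.Helper40.IZ.Pub

/-!
Definitions used in the statement on isometric extensions of uniquely ergodic skew products.
-/

open MeasureTheory

namespace Pool.Agent.Helper40.JZP

open Pool.Agent.Helper16.CZP (Base)
open Pool.Agent.Helper40.DZP (ZeroEnt)
open Pool.Agent.Helper40.IZP (FibreCts)

/-- `S` is of the form `(x, k) ↦ (x + θ, k + f x)` on the torus of dimension `r + 1` (`x` are the
first `r` coordinates and `k` is the last coordinate of a point; `f` is continuous since `S` is
continuous), and any two probability measures which are invariant under `S` are equal -/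
def Skew : {r : ℕ} → C(UnitAddTorus (Fin r), UnitAddTorus (Fin r)) → Prop
  | 0, _ => False
  | r + 1, S =>
    (∃ (θ : UnitAddTorus (Fin r)) (f : UnitAddTorus (Fin r) → UnitAddCircle), ∀ x k,
      S (Fin.snoc (α := fun _ => UnitAddCircle) x k) =
        Fin.snoc (α := fun _ => UnitAddCircle) (x + θ) (k + f x)) ∧
    ∀ (ν ν' : Measure (UnitAddTorus (Fin (r + 1)))) [IsProbabilityMeasure ν]
      [IsProbabilityMeasure ν'], MeasurePreserving S ν ν → MeasurePreserving S ν' ν' → ν = ν'

/-- the hypotheses on `S`, the map `T` of `X` and the function `F` on `X` -/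
def Adm {X : Type} [TopologicalSpace X] {r : ℕ} (π : X → UnitAddTorus (Fin r))
    (S : C(UnitAddTorus (Fin r), UnitAddTorus (Fin r))) (T : X → X) (F : X → ℂ) : Prop :=
  ((Base S ∨ Skew S) ∧ FibreCts π T ∧ FibreCts π F ∧ ∃ C : ℝ, ∀ x, ‖F x‖ ≤ C) ∨
  (ZeroEnt S ∧ Continuous T ∧ Continuous F)

end Pool.Agent.Helper40.JZP
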