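import Pool.Agent.Helper40.JZ.Stmts
import Pool.Agent.Helper40.JZ.Pub

/-!
Unique ergodicity of the skew product (MP_7a8f48_an).
-/

open Finset Filter MeasureTheory Topology
open scoped ComplexConjugate InnerProductSpace

namespace Pool.Agent.Helper40.JZ

open Pool.Agent.Helper16.AZ (T E Op mm fc Ind)
open Pool.Agent.Helper16.BZ (co Wk EE ff EQ)
open Pool.Agent.Helper40.DZ (RI UR SK Good3)
open Pool.Agent.Helper40.JZP (Skew)

/-- UEN: uniquely ergodic skew products satisfy the hypotheses -/
def ST_UEN : Prop := ∀ (r : ℕ) (S : C(T (r + 1), T (r + 1))), Skew S →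
  ∃ (θ : T r) (f : T r → U), Continuous f ∧ (∀ y, S y = SA θ f y) ∧ Ind θ ∧ N0 θ f

theorem ergodic_of_unique {X : Type} [MeasurableSpace X] (f : X → X) (μ : Measure X)
    [IsProbabilityMeasure μ] (hf : MeasurePreserving f μ μ)
    (h : ∀ ν : Measure X, IsProbabilityMeasure ν → MeasurePreserving f ν ν → ν = μ) :
    Ergodic f μ := by
  refine Ergodic.of_mem_extremePoints ⟨⟨hf, inferInstance⟩, ?_⟩
  intro a ha b hb _
  exact h a ha.2 ha.1

theorem inv_const_zero {R : ℕ} (S : T R → T R) (hS : Ergodic S (mm R)) (h : T R → U)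
    (hm : Measurable h) (hi : ∀ᵐ y ∂(mm R), h (S y) = h y) (t : T R) (a : U) (ha : a ≠ 0)
    (ht : ∀ y, h (y + t) = h y + a) : False := by
  obtain ⟨c, hc⟩ := hS.ae_eq_const_of_ae_eq_comp_ae hm.aestronglyMeasurable hi
  have h1 : MeasurePreserving (fun y : T R => y + t) (mm R) (mm R) :=
    measurePreserving_add_right (mm R) t
  have h2 := h1.quasiMeasurePreserving.ae hc
  obtain ⟨y, hy, hy'⟩ := (hc.and h2).exists
  simp only [Function.const_apply] at hy hy'
  rw [ht, hy] at hy'
  exact ha (by simpa using hy')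

theorem mp_ini (hF : ST_FIB) (r : ℕ) :
    MeasurePreserving (ini : T (r + 1) → T r) (mm (r + 1)) (mm r) := by
  have h1 := (hF r).1
  have h2 : MeasurePreserving (Prod.fst : T r × U → T r)
      ((mm r).prod (AddCircle.haarAddCircle : Measure U)) (mm r) := measurePreserving_fst
  refine ⟨continuous_ini.measurable, ?_⟩
  rw [← h1.map_eq, Measure.map_map continuous_ini.measurable h1.measurable]
  have h3 : (ini ∘ fun z : T r × U => sn z.1 z.2) = (Prod.fst : T r × U → T r) := by
    funext z
    simp
  rw [h3, h2.map_eq]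

theorem ne_half : ((((1 : ℝ) / 2 : ℝ)) : U) ≠ 0 := by
  intro h
  rw [AddCircle.coe_eq_zero_iff] at h
  obtain ⟨n, hn⟩ := h
  have h1 : (n : ℝ) * 2 = 1 := by
    have : (n : ℝ) = 1 / 2 := by simpa using hn
    rw [this]
    norm_num
  have h2 : n * 2 = 1 := by exact_mod_cast h1
  omega

theorem smul_half (a : ℤ) (ha : a ≠ 0) :
    a • (((1 : ℝ) / (2 * a) : ℝ) : U) = (((1 : ℝ) / 2 : ℝ) : U) := by
  have ha' : (a : ℝ) ≠ 0 := by exact_mod_cast ha
  rw [← AddCircle.coe_zsmul]
  congr 1
  rw [zsmul_eq_mul]
  field_simp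

theorem st_UEN (hF : ST_FIB) (hM : ST_MPA) : ST_UEN := by
  intro r S hS
  obtain ⟨⟨θ, f, hf⟩, hu⟩ := hS
  have hf' : ∀ x k, S (sn x k) = sn (x + θ) (k + f x) := hf
  have hSA : ∀ y, S y = SA θ f y := by
    intro y
    conv_lhs => rw [← sn_ini_las y]
    rw [hf', SA]
  have hc : Continuous f := by
    have h1 : f = fun x => las (S (sn x 0)) := by
      funext x
      rw [hf', las_sn, zero_add]
    rw [h1]
    have h2 : Continuous fun x : T r => sn x (0 : U) :=
      continuous_sn.comp (continuous_id.prodMk continuous_const)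
    exact continuous_las.comp (S.continuous.comp h2)
  have hMP : MeasurePreserving (S : T (r + 1) → T (r + 1)) (mm (r + 1)) (mm (r + 1)) := by
    have h1 := (hM r θ f hc).1
    have h2 : (S : T (r + 1) → T (r + 1)) = SA θ f := funext hSA
    rw [h2]
    exact h1
  have hE : Ergodic (S : T (r + 1) → T (r + 1)) (mm (r + 1)) := by
    refine ergodic_of_unique _ _ hMP fun ν hν hν' => ?_
    exact @hu ν (mm (r + 1)) hν inferInstance hν' hMP
  refine ⟨θ, f, hc, hSA, ?_, ?_⟩
  · intro X hX h0
    obtain ⟨i, hi⟩ : ∃ i, X i ≠ 0 := by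
      by_contra hh
      push Not at hh
      exact hX (funext hh)
    refine inv_const_zero (S : T (r + 1) → T (r + 1)) hE (fun y => ∑ j, X j • ini y j) ?_ ?_
      (sn (Pi.single i (((1 : ℝ) / (2 * X i) : ℝ) : U)) 0) (((1 : ℝ) / 2 : ℝ) : U) ne_half ?_
    · refine Continuous.measurable ?_
      have := (continuous_ini : Continuous (ini : T (r + 1) → T r))
      refine continuous_finsetSum _ fun j _ => ?_
      exact ((continuous_apply j).comp this).zsmul (X j)
    · refine Eventually.of_forall fun y => ?_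
      rw [hSA y]
      simp only [SA, ini_sn, Pi.add_apply, smul_add, Finset.sum_add_distrib]
      rw [h0, add_zero]
    · intro y
      have h1 : ∀ j, ini (y + sn (Pi.single i (((1 : ℝ) / (2 * X i) : ℝ) : U)) 0) j =
          ini y j + (Pi.single i (((1 : ℝ) / (2 * X i) : ℝ) : U) : T r) j := by
        intro j
        have : ∀ z : T (r + 1), ini (y + z) j = ini y j + ini z j := fun z => rfl
        rw [this, ini_sn]
      simp only [h1, smul_add, Finset.sum_add_distrib]
      congr 1
      rw [Finset.sum_eq_single i]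
      · rw [Pi.single_eq_same, smul_half _ hi]
      · intro j _ hj
        rw [Pi.single_eq_of_ne hj, smul_zero]
      · intro h
        exact absurd (Finset.mem_univ i) h
  · intro a ha u hum h0
    refine inv_const_zero (S : T (r + 1) → T (r + 1)) hE (fun y => a • las y + u (ini y)) ?_ ?_
      (sn 0 (((1 : ℝ) / (2 * a) : ℝ) : U)) (((1 : ℝ) / 2 : ℝ) : U) ne_half ?_
    · have h1 : Measurable fun y : T (r + 1) => a • las y :=
        (continuous_las.zsmul a).measurable
      exact h1.add (hum.comp continuous_ini.measurable)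
    · have h1 := (mp_ini hF r).quasiMeasurePreserving.ae h0
      filter_upwards [h1] with y hy
      rw [hSA y]
      simp only [SA, ini_sn, las_sn, smul_add]
      rw [add_assoc, hy]
    · intro y
      have h1 : las (y + sn (0 : T r) (((1 : ℝ) / (2 * a) : ℝ) : U)) =
          las y + (((1 : ℝ) / (2 * a) : ℝ) : U) := by
        have : ∀ z : T (r + 1), las (y + z) = las y + las z := fun z => rfl
        rw [this, las_sn]
      have h2 : ini (y + sn (0 : T r) (((1 : ℝ) / (2 * a) : ℝ) : U)) = ini y := by
        have : ∀ z : T (r + 1), ini (y + z) = ini y + ini z := fun z => rfl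
        rw [this, ini_sn, add_zero]
      simp only [h1, h2, smul_add, smul_half a ha]
      abel

end Pool.Agent.Helper40.JZ
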