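import Pool.Agent.Helper40.JZ.Defs
import Pool.Agent.Helper16.BZ.Stmts

/-!
Two continuous levels: statements of the modules (MP_7a8f48_an).
-/

open Finset Filter MeasureTheory Topology
open scoped ComplexConjugate InnerProductSpace

namespace Pool.Agent.Helper40.JZ

open Pool.Agent.Helper16.AZ (T E Op mm fc Ind)
open Pool.Agent.Helper16.BZ (co Wk EE ff EQ)
open Pool.Agent.Helper16.MD (MS PB Am RW Rich)
open Pool.Agent.Helper40.DZ (RI UR SK Good3)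
open UnitAddTorus (mFourier)

/-! ## Block T: the torus -/

/-- the character `s ↦ ∑ n i s i` with values in the circle -/
def chi {r : ℕ} (n : Fin r → ℤ) (s : T r) : U := ∑ i, n i • s i

/-- representatives -/
def vz {r q : ℕ} (ω : Fin r → ZMod q) : Fin r → ℤ := fun i => ((ω i).val : ℤ)

/-- TOR: the torsion points. -/
def ST_TOR : Prop := ∀ r q : ℕ, 1 ≤ q →
  (∀ s : T r, s ∈ tor r q ↔ q • s = 0) ∧ (tor r q).card = q ^ r ∧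
  (∀ s₀ ∈ tor r q, ∀ F : T r → ℂ, ∑ s ∈ tor r q, F (s + s₀) = ∑ s ∈ tor r q, F s) ∧
  (∀ p : ℕ, Nat.Coprime p q → ∀ F : T r → ℂ,
    ∑ s ∈ tor r q, F (p • s) = ∑ s ∈ tor r q, F s) ∧
  ∀ p : ℕ, Nat.Coprime p q → ∀ s ∈ tor r q, ∃ s' ∈ tor r q, p • s' = s

/-- TCH: the characters of the group of torsion points and Plancherel's formula. -/
def ST_TCH : Prop := ∀ (r q : ℕ) [NeZero q],
  (∀ χ : T r → U, (∀ s ∈ tor r q, ∀ s' ∈ tor r q, χ (s + s') = χ s + χ s') →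
    ∃ ω : Fin r → ZMod q, ∀ s ∈ tor r q, χ s = chi (vz ω) s) ∧
  (∀ (X : Fin r → ℤ) (ω : Fin r → ZMod q), (∀ i, ((X i : ℤ) : ZMod q) = ω i) →
    ∀ s ∈ tor r q, chi X s = chi (vz ω) s) ∧
  (∀ (n : Fin r → ℤ) (s : T r) (j : ℤ), (fourier j (chi n s) : ℂ) = mFourier (j • n) s) ∧
  ∀ v : T r → ℂ, ∑ ω : Fin r → ZMod q, ‖∑ s ∈ tor r q, fourier 1 (chi (vz ω) s) * v s‖ ^ 2 =
    (q : ℝ) ^ r * ∑ s ∈ tor r q, ‖v s‖ ^ 2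

/-- ERG: minimal rotations are ergodic. -/
def ST_ERG : Prop := ∀ (r : ℕ) (β : T r), Ind β →
  (∀ p : ℕ, 1 ≤ p → Ind (p • β)) ∧
  (∀ u : T r → U, Measurable u → (∀ᵐ z ∂(mm r), u (z + β) = u z) →
    ∃ c : U, ∀ᵐ z ∂(mm r), u z = c) ∧
  ∀ h : T r → ℂ, MemLp h 2 (mm r) → (∀ᵐ z ∂(mm r), h (z + β) = h z) →
    ∃ c : ℂ, ∀ᵐ z ∂(mm r), h z = c

/-- MPZ: the multiplication by `p`. -/
def ST_MPZ : Prop := ∀ (r p : ℕ), 1 ≤ p →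
  (∀ x₀ : T r, MeasurePreserving (fun z : T r => x₀ + p • z) (mm r) (mm r)) ∧
  ∀ u : T r → U, Measurable u → (∀ s ∈ tor r p, ∀ᵐ z ∂(mm r), u (z + s) = u z) →
    ∃ u' : T r → U, Measurable u' ∧ ∀ᵐ z ∂(mm r), u z = u' (p • z)

/-- POW: from the power `p` of the rotation to the rotation. -/
def ST_POW : Prop := ∀ (r : ℕ) (θ : T r), Ind θ → ∀ (p : ℕ) (κ D : T r → U), 1 ≤ p →
  Measurable κ → Measurable D → (∀ᵐ x ∂(mm r), D (x + p • θ) = cs θ κ p x + D x) →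
  ∃ ω : U, p • ω = 0 ∧ ∀ᵐ x ∂(mm r), D (x + θ) = ω + κ x + D x

/-- COB: averages of a continuous cocycle. -/
def ST_COB : Prop := ∀ (r : ℕ) (β : T r), Ind β → ∀ (l : T r → U) (g : T r → ℂ) (z₀ : T r),
  Continuous l → Continuous g →
  ((∀ u : T r → U, Measurable u → ¬ ∀ᵐ z ∂(mm r), u (z + β) = l z + u z) →
    Tendsto (fun M : ℕ => (∑ n ∈ range M, fourier 1 (cs β l n z₀) * g (z₀ + n • β)) / (M : ℂ))
      atTop (𝓝 0)) ∧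
  ∀ u : T r → U, Measurable u → (∀ᵐ z ∂(mm r), u (z + β) = l z + u z) →
    ∀ ε : ℝ, 0 < ε → ∀ᶠ M : ℕ in atTop,
      ‖∑ n ∈ range M, fourier 1 (cs β l n z₀) * g (z₀ + n • β)‖ ≤
        (‖∫ z, fourier 1 (u z) * g z ∂(mm r)‖ + ε) * M

/-! ## Block R: resonances -/

/-- LFR: a resonance gives a lift. -/
def ST_LFR : Prop := ∀ (r : ℕ) (θ : T r) (f : T r → U), Ind θ → Continuous f →
  ∀ (p q : ℕ) (x₀ : T r) (a b : ℤ) (u : T r → U), p.Prime → q.Prime → p ≠ q →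
  Rs θ f p q x₀ a b u →
  ∃ D : T r → T r → U, Lift θ f q a D ∧
    ∀ s ∈ tor r q, ∀ᵐ z ∂(mm r), u (z + s) = D (p • s) (x₀ + p • z) + u z

/-- PUR: there is no resonance with one side only. -/
def ST_PUR : Prop := ∀ (r : ℕ) (θ : T r) (f : T r → U), Ind θ → Continuous f → N0 θ f →
  ∀ (q : ℕ) (x₀ : T r) (b : ℤ) (u : T r → U), 1 ≤ q → Measurable u →
  (∀ᵐ z ∂(mm r), u (z + θ) = b • cs θ f q (x₀ + q • z) + u z) → b = 0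

/-- RCY: the group of the resonances is cyclic. -/
def ST_RCY : Prop := ∀ (r : ℕ) (θ : T r) (f : T r → U), Ind θ → Continuous f → N0 θ f →
  ∀ (p q : ℕ) (x₀ : T r), p.Prime → q.Prime → p ≠ q →
  (∀ (a b : ℤ) (u : T r → U), Rs θ f p q x₀ a b u → a = 0 ∧ b = 0) ∨
  ∃ (a₀ b₀ : ℤ) (u₀ : T r → U), a₀ ≠ 0 ∧ b₀ ≠ 0 ∧ Rs θ f p q x₀ a₀ b₀ u₀ ∧
    ∀ (a b : ℤ) (u : T r → U), Rs θ f p q x₀ a b u → ∃ j : ℤ, a = j * a₀ ∧ b = j * b₀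

/-- PRJ: the integral of a resonant pair is bounded by the masses. -/
def ST_PRJ : Prop := ∀ (r p q : ℕ) (x₀ : T r) (u : T r → U) (D D' : T r → T r → U) (j : ℤ)
  (g g' : T r → ℂ), p.Prime → q.Prime → p ≠ q → Measurable u →
  (∀ s ∈ tor r q, Measurable (D s)) →
  (∀ s ∈ tor r q, ∀ᵐ z ∂(mm r), u (z + s) = D (p • s) (x₀ + p • z) + u z) →
  (∀ s ∈ tor r p, Measurable (D' s)) →
  (∀ s ∈ tor r p, ∀ᵐ z ∂(mm r), -u (z + s) = D' (q • s) (x₀ + q • z) + -u z) →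
  MemLp g 2 (mm r) → MemLp g' 2 (mm r) →
  ‖∫ z, fourier j (u z) * (g (x₀ + p • z) * conj (g' (x₀ + q • z))) ∂(mm r)‖ ≤
    Real.sqrt (ms q D j g) * Real.sqrt (ms p D' j g')

/-- PRB: the same for the trivial resonance, with the integrals separated. -/
def ST_PRB : Prop := ∀ (r p q : ℕ) (x₀ : T r) (g g' : T r → ℂ), p.Prime → q.Prime → p ≠ q →
  MemLp g 2 (mm r) → MemLp g' 2 (mm r) →
  ‖∫ x, g x ∂(mm r)‖ ^ 2 ≤ ms q (fun _ _ => 0) 0 g ∧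
  ‖∫ z, g (x₀ + p • z) * conj (g' (x₀ + q • z)) ∂(mm r)‖ ≤
    ‖∫ x, g x ∂(mm r)‖ * ‖∫ x, g' x ∂(mm r)‖ +
    Real.sqrt (ms q (fun _ _ => 0) 0 g - ‖∫ x, g x ∂(mm r)‖ ^ 2) *
      Real.sqrt (ms p (fun _ _ => 0) 0 g' - ‖∫ x, g' x ∂(mm r)‖ ^ 2)

/-- MSF: elementary properties of `ms`. -/
def ST_MSF : Prop := ∀ (r q : ℕ) (D : T r → T r → U) (j : ℤ) (g g' : T r → ℂ), 1 ≤ q →
  (∀ s ∈ tor r q, Measurable (D s)) → MemLp g 2 (mm r) → MemLp g' 2 (mm r) →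
  MemLp (pj q D j g) 2 (mm r) ∧ 0 ≤ ms q D j g ∧ ms q D j g ≤ ∫ x, ‖g x‖ ^ 2 ∂(mm r) ∧
  Real.sqrt (ms q D j (fun x => g x + g' x)) ≤
    Real.sqrt (ms q D j g) + Real.sqrt (ms q D j g') ∧
  ∀ (θ : T r) (f : T r → U) (a : ℤ), Measurable f → Lift θ f q a D →
    ms q D j (fun x => fourier (j * a) (f x) * g (x + θ)) = ms q D j g

/-! ## Block F: Fourier coefficients in the last coordinate -/

/-- FIB: Parseval's formula. -/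
def ST_FIB : Prop := ∀ r : ℕ,
  MeasurePreserving (fun z : T r × U => sn z.1 z.2)
    ((mm r).prod (AddCircle.haarAddCircle : Measure U)) (mm (r + 1)) ∧
  ∀ G : T (r + 1) → ℂ, MemLp G 2 (mm (r + 1)) →
    (∀ a : ℤ, MemLp (fib G a) 2 (mm r)) ∧
    HasSum (fun a : ℤ => ∫ x, ‖fib G a x‖ ^ 2 ∂(mm r)) (∫ y, ‖G y‖ ^ 2 ∂(mm (r + 1))) ∧
    ∫ y, G y ∂(mm (r + 1)) = ∫ x, fib G 0 x ∂(mm r) ∧
    ∀ (θ : T r) (f : T r → U), Measurable f → ∀ a : ℤ, ∀ᵐ x ∂(mm r),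
      fib (fun y => G (SA θ f y)) a x = fourier a (f x) * fib G a (x + θ)

/-- NTF: elementary properties of the masses. -/
def ST_NTF : Prop := ∀ (r : ℕ) (θ : T r) (f : T r → U) (q : ℕ) (t : TY r)
  (G G' : T (r + 1) → ℂ), 1 ≤ q → Measurable f → OK θ f q t → MemLp G 2 (mm (r + 1)) →
  MemLp G' 2 (mm (r + 1)) →
  ‖∫ y, G y ∂(mm (r + 1))‖ ^ 2 ≤ NT q t G ∧ NT q t G ≤ ∫ y, ‖G y‖ ^ 2 ∂(mm (r + 1)) ∧
  (∀ s : ℤ × (T r → T r → U), t = some s → Summable fun j : ℤ => ms q s.2 j (fib G (j * s.1))) ∧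
  NT q t (fun y => G (SA θ f y)) = NT q t G ∧
  Real.sqrt (NT q t G - ‖∫ y, G y ∂(mm (r + 1))‖ ^ 2) ≤
    Real.sqrt (NT q t G' - ‖∫ y, G' y ∂(mm (r + 1))‖ ^ 2) +
    Real.sqrt (∫ y, ‖G y - G' y‖ ^ 2 ∂(mm (r + 1)))

/-! ## Block J: joinings -/

/-- MPA: the skew product preserves the measure and is a homeomorphism. -/
def ST_MPA : Prop := ∀ (r : ℕ) (θ : T r) (f : T r → U), Continuous f →
  MeasurePreserving (SA θ f) (mm (r + 1)) (mm (r + 1)) ∧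
  ∃ S : T (r + 1) ≃ₜ T (r + 1), ∀ y, S y = SA θ f y

/-- EQA: all orbits of all powers are equidistributed. -/
def ST_EQA : Prop := ∀ (r : ℕ) (θ : T r) (f : T r → U), Ind θ → Continuous f → N0 θ f →
  EQ (SA θ f) (mm (r + 1))

/-- JTP: joinings for functions with finitely many Fourier coefficients in the last variable. -/
def ST_JTP : Prop := ∀ (r : ℕ) (θ : T r) (f : T r → U), Ind θ → Continuous f →
  ∀ (p q : ℕ) (y₀ : T (r + 1)) (A A' : Finset ℤ) (g g' : ℤ → T r → ℂ) (R : Finset (ℤ × ℤ))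
  (w : ℤ → ℤ → T r → U), 1 ≤ p → 1 ≤ q → (∀ a, Continuous (g a)) → (∀ a, Continuous (g' a)) →
  R ⊆ A ×ˢ A' → (∀ c ∈ R, Rs θ f p q (ini y₀) c.1 c.2 (w c.1 c.2)) →
  (∀ c ∈ A ×ˢ A', c ∉ R → ∀ u : T r → U, ¬ Rs θ f p q (ini y₀) c.1 c.2 u) →
  ∀ ε : ℝ, 0 < ε → ∀ᶠ M : ℕ in atTop,
  ‖∑ n ∈ Icc 1 M, (∑ a ∈ A, g a (ini ((SA θ f)^[p * n] y₀)) *
      fourier a (las ((SA θ f)^[p * n] y₀))) *
    conj (∑ b ∈ A', g' b (ini ((SA θ f)^[q * n] y₀)) *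
      fourier b (las ((SA θ f)^[q * n] y₀)))‖ ≤
    ((∑ c ∈ R, ‖∫ z, fourier 1 (w c.1 c.2 z) * (g c.1 (ini y₀ + p • z) *
      conj (g' c.2 (ini y₀ + q • z))) ∂(mm r)‖) + ε) * M

/-- RES: bound for all correlations of the powers `p` and `q`. -/
def ST_RES : Prop := ∀ (r : ℕ) (θ : T r) (f : T r → U), Ind θ → Continuous f → N0 θ f →
  ∀ (p q : ℕ) (y₀ : T (r + 1)), p.Prime → q.Prime → p ≠ q →
  ∃ t t' : TY r, OK θ f q t ∧ OK θ f p t' ∧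
  (∀ (A : ℤ) (w : T r → U), Qc θ f A w → Cn A w q t ∧ Cn A w p t') ∧
  ∀ G G' : T (r + 1) → ℂ, RI G → RI G' →
  ∀ ε : ℝ, 0 < ε → ∀ᶠ M : ℕ in atTop,
  ‖∑ n ∈ Icc 1 M, G ((SA θ f)^[p * n] y₀) * conj (G' ((SA θ f)^[q * n] y₀))‖ ≤
    (‖∫ y, G y ∂(mm (r + 1))‖ * ‖∫ y, G' y ∂(mm (r + 1))‖ +
      Real.sqrt (NT q t G - ‖∫ y, G y ∂(mm (r + 1))‖ ^ 2) *
      Real.sqrt (NT p t' G' - ‖∫ y, G' y ∂(mm (r + 1))‖ ^ 2) + ε) * M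

/-! ## Block K: kernels -/

/-- RTM: measurable division in the circle. -/
def ST_RTM : Prop := ∀ a : ℤ, a ≠ 0 → ∃ ρ : U → U, Measurable ρ ∧ ∀ t : U, a • ρ t = t

/-- MTR: the mass of a type as an average of correlations with measure preserving maps. -/
def ST_MTR : Prop := ∀ (r : ℕ) (θ : T r) (f : T r → U) (q : ℕ) (a : ℤ) (D : T r → T r → U)
  (ρ : U → U) (G : T (r + 1) → ℂ), 1 ≤ q → a ≠ 0 → Lift θ f q a D → Measurable ρ →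
  (∀ t, a • ρ t = t) → RI G →
  ((NT q (some (a, D)) G : ℝ) : ℂ) = (∑ s ∈ tor r q, ∑ l ∈ range a.natAbs,
    ∫ y, G (sn (ini y + s) (las y + (ρ (D s (ini y)) + (((l : ℝ) / (a.natAbs : ℝ) : ℝ) : U)))) *
      conj (G y) ∂(mm (r + 1))) / ((q : ℂ) ^ r * (a.natAbs : ℂ))

/-- NRT: such averages are positive definite. -/
def ST_NRT : Prop := ∀ (R d : ℕ) (ι : Type) [Fintype ι] (τ : ι → T R → T R) (m : ℝ)
  (g : ℕ → T R → E d), 0 ≤ m → (∀ i, MeasurePreserving (τ i) (mm R) (mm R)) →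
  (∀ k, RI (g k)) → ∃ (V : Type) (_ : NormedAddCommGroup V) (_ : InnerProductSpace ℂ V)
  (_ : CompleteSpace V) (w : ℕ → V), ∀ k k' : ℕ, (inner ℂ (w k) (w k') : ℂ) =
    (m : ℂ) * ∑ i, ∫ y, (inner ℂ (g k (τ i y)) (g k' (τ i y)) : ℂ) *
      conj (inner ℂ (g k y) (g k' y) : ℂ) ∂(mm R)

/-- SKN: the kernels of the masses are stationary and positive definite. -/
def ST_SKN : Prop := ∀ (r : ℕ) (θ : T r) (f : T r → U), Continuous f →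
  ∀ (q : ℕ) (t : TY r) (d : ℕ) (φ : T (r + 1) → Op d) (c : T (r + 1) → E d), 1 ≤ q →
  OK θ f q t → UR φ → Continuous c →
  SK (fun k k' => NT q t (EE (SA θ f) φ c k k')) ∧
  SK (fun k k' => ‖∫ y, EE (SA θ f) φ c k k' y ∂(mm (r + 1))‖ ^ 2)

/-- LCH: two lifts for the same `a` differ by a character. -/
def ST_LCH : Prop := ∀ (r : ℕ) (θ : T r) (f : T r → U) (q : ℕ) [NeZero q] (a : ℤ)
  (D D' : T r → T r → U), Ind θ → Lift θ f q a D → Lift θ f q a D' →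
  ∃ ω : Fin r → ZMod q, ∀ s ∈ tor r q, ∀ᵐ x ∂(mm r), D' s x = chi (vz ω) s + D s x

/-- CLF: all types of a prime in the same coordinates. -/
def ST_CLF : Prop := ∀ (r : ℕ) (θ : T r) (f : T r → U) (q : ℕ), Ind θ → Continuous f →
  q.Prime → ∃ Φ : (T (r + 1) → ℂ) → ℤ × (Fin r → ZMod q) → ℝ,
  (∀ G, MemLp G 2 (mm (r + 1)) → (∀ u, 0 ≤ Φ G u) ∧ Summable (Φ G) ∧
    ∑' u, Φ G u ≤ ∫ y, ‖G y‖ ^ 2 ∂(mm (r + 1)) ∧ NT q none G = Φ G 0) ∧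
  (∀ t : TY r, OK θ f q t → t = none ∨ ∃ τ : ℤ × (Fin r → ZMod q), τ.1 ≠ 0 ∧
    ∀ G, MemLp G 2 (mm (r + 1)) → NT q t G = ∑' m : ℤ, Φ G (m • τ)) ∧
  ∀ τ : ℤ × (Fin r → ZMod q), τ.1 ≠ 0 → ∃ t : TY r, OK θ f q t ∧
    ∀ G, MemLp G 2 (mm (r + 1)) → ∑' m : ℤ, Φ G (m • τ) = NT q t G

/-- EVC: a limit of projections with bounded Hilbert-Schmidt norm on finite sets. -/
def ST_EVC : Prop := ∀ (H : Type) [NormedAddCommGroup H] [InnerProductSpace ℂ H]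
  [CompleteSpace H] (ι : Type) (e : HilbertBasis ι ℂ H) (W : H →L[ℂ] H) (P : ℕ → H →L[ℂ] H)
  (g : H) (δ : ℝ), 0 < δ → (∀ n, ‖P n‖ ≤ 1) →
  (∀ n, LinearMap.IsSymmetric (P n : H →ₗ[ℂ] H)) → (∀ n h, W (P n h) = P n (W h)) →
  (∀ B : Finset ι, ∀ᶠ n in atTop, ∑ i ∈ B, ‖P n (e i)‖ ^ 2 ≤ 1) →
  (∀ n, δ ≤ RCLike.re (inner ℂ (P n g) g : ℂ)) →
  ∃ (h : H) (c : ℂ), h ≠ 0 ∧ W h = c • h

/-- QHS: the masses of the lifts for one `a ≠ 0` tend to zero. -/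
def ST_QHS : Prop := ∀ (r : ℕ) (θ : T r) (f : T r → U), Ind θ → Continuous f → NE θ f →
  ∀ (a : ℤ) (g : T r → ℂ) (ε : ℝ), a ≠ 0 → MemLp g 2 (mm r) → 0 < ε →
  ∃ q₀ : ℕ, ∀ q ≥ q₀, q.Prime → ∀ D : T r → T r → U, Lift θ f q a D → ms q D 1 g ≤ ε

/-- QBZ: the masses of the base. -/
def ST_QBZ : Prop := ∀ (r : ℕ) (g : T r → ℂ), MemLp g 2 (mm r) →
  Tendsto (fun q : ℕ => ms q (fun _ _ => 0) 0 g) atTop (𝓝 (‖∫ x, g x ∂(mm r)‖ ^ 2))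

/-- QLU: all masses for `q → ∞`. -/
def ST_QLU : Prop := ∀ (r : ℕ) (θ : T r) (f : T r → U), Ind θ → Continuous f → NE θ f →
  ∀ (G : T (r + 1) → ℂ) (ε : ℝ), MemLp G 2 (mm (r + 1)) → 0 < ε →
  ∃ q₀ : ℕ, ∀ q ≥ q₀, q.Prime → ∀ t : TY r, OK θ f q t →
    NT q t G ≤ ‖∫ y, G y ∂(mm (r + 1))‖ ^ 2 + ε

/-- the mean of the kernel along the multiples of `m` -/
noncomputable def LM (N : ℕ → ℕ → ℝ) (m : ℕ) : ℝ := limUnder atTop fun H : ℕ =>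
  (∑ h ∈ range H, ∑ h' ∈ range H, N (m * h) (m * h')) / (H : ℝ) ^ 2

/-- LMF: properties of the means. -/
def ST_LMF : Prop := ∀ N : ℕ → ℕ → ℝ, SK N →
  (∀ m : ℕ, 1 ≤ m → Tendsto (fun H : ℕ =>
    (∑ h ∈ range H, ∑ h' ∈ range H, N (m * h) (m * h')) / (H : ℝ) ^ 2) atTop (𝓝 (LM N m))) ∧
  (∀ m n : ℕ, 1 ≤ m → 1 ≤ n → LM N m ≤ LM N (m * n)) ∧
  (∀ Q : Finset ℕ, (∀ q ∈ Q, 2 ≤ q) → (∀ q ∈ Q, ∀ q' ∈ Q, q ≠ q' → Nat.Coprime q q') →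
    ∑ q ∈ Q, (LM N q - LM N 1) ≤ N 0 0) ∧
  (∀ K : ℕ, 1 ≤ K → LM N 1 ≤ (∑ k ∈ range K, ∑ k' ∈ range K, N k k') / (K : ℝ) ^ 2) ∧
  ∀ N' : ℕ → ℕ → ℝ, SK N' → (∀ k k', N k k' ≤ N' k k') → ∀ m : ℕ, 1 ≤ m → LM N m ≤ LM N' m

/-- the kernel of a type in the coordinates of CLF -/
noncomputable def NX {X : Type} [AddCommGroup X] (Φ : ℕ → ℕ → ℤ × X → ℝ) :
    Option (ℤ × X) → ℕ → ℕ → ℝ
  | none, k, k' => Φ k k' 0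
  | some t, k, k' => ∑' m : ℤ, Φ k k' (m • t)

/-- RBW: rainbow groups. -/
def ST_RBW : Prop := ∀ (α : Type) (P : Finset ℕ) (cl : ℕ → α) (K : ℕ), 1 ≤ K →
  ∃ (n : ℕ) (g : ℕ → Finset ℕ) (L : Finset ℕ), (∀ i < n, g i ⊆ P ∧ (g i).card = K ∧
    ∀ p ∈ g i, ∀ p' ∈ g i, cl p = cl p' → p = p') ∧
  (∀ i < n, ∀ j < n, i ≠ j → Disjoint (g i) (g j)) ∧ L ⊆ P ∧ (∀ i < n, Disjoint (g i) L) ∧
  (∀ p ∈ P, p ∉ L → ∃ i < n, p ∈ g i) ∧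
  ∃ B : Finset ℕ, B ⊆ L ∧ B.card < K ∧ ∀ p ∈ L, ∃ p' ∈ B, cl p = cl p'

/-- CLS: the sum over the primes of a block for one fixed prime `q`. -/
def ST_CLS : Prop := ∀ (q : ℕ) (X : Type) [AddCommGroup X] (Φ : ℕ → ℕ → ℤ × X → ℝ)
  (N₀ : ℕ → ℕ → ℝ) (C η : ℝ) (K : ℕ) (P : Finset ℕ) (τ : ℕ → Option (ℤ × X)), q.Prime →
  (∀ x : X, q • x = 0) → 1 ≤ K → 0 ≤ C → 0 ≤ η → (∀ k k' u, 0 ≤ Φ k k' u) →
  (∀ k k', Summable (Φ k k')) → (∀ k k', ∑' u, Φ k k' u ≤ C) → SK N₀ →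
  (∀ k k', N₀ k k' ≤ Φ k k' 0) →
  (∀ t : Option (ℤ × X), (∀ s, t = some s → s.1 ≠ 0) → SK (NX Φ t) ∧
    LM (NX Φ t) 1 ≤ LM N₀ 1 + η) →
  (∀ p ∈ P, p.Prime) → (∀ p ∈ P, ∀ s, τ p = some s → s.1 ≠ 0) →
  ∑ p ∈ P, (LM (NX Φ (τ p)) p - LM N₀ p) ≤ (P.card : ℝ) * (η + C / K) + 3 * K * C

/-! ## Block S: the sums over a block of primes -/

/-- STA: the resonances are small on the average. -/
def ST_STA4 : Prop := ∀ (r : ℕ) (θ : T r) (f : T r → U), Ind θ → Continuous f → NE θ f →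
  ∀ (d : ℕ) (φ : T (r + 1) → Op d) (c : T (r + 1) → E d), UR φ → Continuous c →
  ∀ δ : ℝ, 0 < δ → ∀ᶠ i : ℕ in atTop, Rich 1 i →
  ∀ t : ℕ → ℕ → TY r, (∀ p q, OK θ f q (t p q)) →
  ∃ t₀ : ℕ, ∀ H : ℕ, t₀ ≤ H → ∑ h ∈ range H, ∑ h' ∈ range H,
    (∑ p ∈ PB 1 i, ∫ y, ‖EE (SA θ f) φ c (p * h) (p * h') y‖ ^ 2 ∂(mm (r + 1)) +
      ∑ p ∈ PB 1 i, ∑ q ∈ (PB 1 i).erase p, (NT q (t p q) (EE (SA θ f) φ c (p * h) (p * h')) -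
        ‖∫ y, EE (SA θ f) φ c (p * h) (p * h') y ∂(mm (r + 1))‖ ^ 2)) ≤
    δ * ((PB 1 i).card : ℝ) ^ 2 * (H : ℝ) ^ 2

/-- DOM: in the case of a transfer function all types of a prime are dominated by one type. -/
def ST_DOM : Prop := ∀ (r : ℕ) (θ : T r) (f : T r → U) (A : ℤ) (w : T r → U), Ind θ →
  Continuous f → Qc θ f A w → ∀ q : ℕ, q.Prime → A.natAbs < q →
  ∃ t₀ : TY r, OK θ f q t₀ ∧ (∀ s, t₀ = some s → (q : ℤ) ∣ s.1) ∧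
  ∀ t : TY r, OK θ f q t → Cn A w q t → ∀ G : T (r + 1) → ℂ, MemLp G 2 (mm (r + 1)) →
  NT q t G ≤ NT q t₀ G

/-- QLC: the masses of such types for `q → ∞`. -/
def ST_QLC : Prop := ∀ (r : ℕ) (θ : T r) (f : T r → U), Continuous f →
  ∀ (G : T (r + 1) → ℂ) (ε : ℝ), MemLp G 2 (mm (r + 1)) → 0 < ε →
  ∃ q₀ : ℕ, ∀ q ≥ q₀, q.Prime → ∀ t : TY r, OK θ f q t → (∀ s, t = some s → (q : ℤ) ∣ s.1) →
  NT q t G ≤ ‖∫ y, G y ∂(mm (r + 1))‖ ^ 2 + ε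

/-- STC: the resonances are small on the average, in the case of a transfer function. -/
def ST_STC : Prop := ∀ (r : ℕ) (θ : T r) (f : T r → U) (A : ℤ) (w : T r → U), Ind θ →
  Continuous f → Qc θ f A w →
  ∀ (d : ℕ) (φ : T (r + 1) → Op d) (c : T (r + 1) → E d), UR φ → Continuous c →
  ∀ δ : ℝ, 0 < δ → ∀ᶠ i : ℕ in atTop, Rich 1 i →
  ∀ t : ℕ → ℕ → TY r, (∀ p q, OK θ f q (t p q) ∧ Cn A w q (t p q)) →
  ∃ t₀ : ℕ, ∀ H : ℕ, t₀ ≤ H → ∑ h ∈ range H, ∑ h' ∈ range H,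
    (∑ p ∈ PB 1 i, ∫ y, ‖EE (SA θ f) φ c (p * h) (p * h') y‖ ^ 2 ∂(mm (r + 1)) +
      ∑ p ∈ PB 1 i, ∑ q ∈ (PB 1 i).erase p, (NT q (t p q) (EE (SA θ f) φ c (p * h) (p * h')) -
        ‖∫ y, EE (SA θ f) φ c (p * h) (p * h') y ∂(mm (r + 1))‖ ^ 2)) ≤
    δ * ((PB 1 i).card : ℝ) ^ 2 * (H : ℝ) ^ 2

/-- the property which is used for the random part -/
def StrP {R : ℕ} (S : T R → T R) : Prop := ∀ (d : ℕ) (φ : T R → Op d) (c : T R → E d)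
  (x : T R) (κ : ℝ) (H₀ : ℕ), UR φ → Continuous c → 0 < κ → 1 ≤ H₀ →
  (∀ᶠ i : ℕ in atTop, Rich 1 i → ∑ p ∈ PB 1 i, ∑ h ∈ range H₀, ∑ h' ∈ range H₀,
    ‖∫ x, EE S φ c (p * h) (p * h') x ∂(mm R)‖ ^ 2 ≤ κ * (PB 1 i).card * (H₀ : ℝ) ^ 2) →
  ∀ᶠ i : ℕ in atTop, Rich 1 i → ∃ H : ℕ, 1 ≤ H ∧ ∀ Q ⊆ PB 1 i,
  ∀ᶠ M : ℕ in atTop, ∑ h ∈ range H, ∑ h' ∈ range H, ∑ y ∈ Icc 1 M,
    ‖∑ p ∈ Q, EE S φ c (p * h) (p * h') (S^[p * y] x)‖ ^ 2 ≤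
      2 * κ * ((PB 1 i).card : ℝ) ^ 2 * (H : ℝ) ^ 2 * M

/-- STR: the property holds for the skew product. -/
def ST_STR4 : Prop := ∀ (r : ℕ) (θ : T r) (f : T r → U), Ind θ → Continuous f → N0 θ f →
  StrP (SA θ f)

/-- PTC: the random part. -/
def ST_PTC4 : Prop := ∀ η : ℝ, 0 < η → η ≤ 1 → ∃ κ : ℝ, 0 < κ ∧
  ∀ (R d : ℕ) (S : T R → T R) (φ : T R → Op d) (c : T R → E d) (u : E d) (x : T R)
  (H : ℕ), StrP S → Continuous S → EQ S (mm R) → UR φ → Continuous c →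
  ∫ x, ‖c x‖ ^ 2 ∂(mm R) ≤ 3 / 2 → ‖u‖ ≤ 1 → 1 ≤ H →
  (∀ᶠ i : ℕ in atTop, Rich 1 i → ∑ p ∈ PB 1 i, ∑ h ∈ range H, ∑ h' ∈ range H,
    ‖∫ x, EE S φ c (p * h) (p * h') x ∂(mm R)‖ ^ 2 ≤ κ * (PB 1 i).card * (H : ℝ) ^ 2) →
  ∀ᶠ N : ℕ in atTop, ‖MS (ff S φ c u x) N‖ ≤ η * N

/-- THB: the theorem for all transformations with this property. -/
def ST_THB4 : Prop := ∀ (R : ℕ) (S : T R ≃ₜ T R), StrP (S : T R → T R) →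
  MeasurePreserving S (mm R) (mm R) → EQ S (mm R) → Good3 (S : T R → T R)

/-- ANZ: the theorem for the skew product. -/
def ST_ANZ : Prop := ∀ (r : ℕ) (θ : T r) (f : T r → U), Ind θ → Continuous f → N0 θ f →
  Good3 (SA θ f)

end Pool.Agent.Helper40.JZ
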