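import Pool.Agent.Helper40.JZ.Fin
import Pool.Agent.Helper40.IZ.All
import Pool.Agent.Helper2.JZ.MTR
import Pool.Agent.Helper2.JZ.RES
import Pool.Agent.Helper29.JZ.EVC
import Pool.Agent.Helper47.JZ.CLS
import Pool.Agent.Helper47.JZ.RBW
import Pool.Agent.Helper47.JZ.STC
import Pool.Agent.Helper51.JZ.DOM
import Pool.Agent.Helper51.JZ.RCY
import Pool.Agent.Helper53.JZ.CLF
import Pool.Agent.Helper53.JZ.LFR
import Pool.Agent.Helper60.JZ.ERG
import Pool.Agent.Helper60.JZ.MPZ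
import Pool.Agent.Helper60.JZ.POW
import Pool.Agent.Helper60.JZ.PUR
import Pool.Agent.Helper60.JZ.TCH
import Pool.Agent.Helper67.JZ.FIB
import Pool.Agent.Helper67.JZ.MPA
import Pool.Agent.Helper67.JZ.NRT
import Pool.Agent.Helper67.JZ.SKN
import Pool.Agent.Helper67.JZ.TOR
import Pool.Agent.Helper72.JZ.ANZ
import Pool.Agent.Helper72.JZ.PTC4
import Pool.Agent.Helper72.JZ.STR4
import Pool.Agent.Helper73.JZ.QLC
import Pool.Agent.Helper73.JZ.THB4
import Pool.Agent.Helper92.JZ.COB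
import Pool.Agent.Helper92.JZ.QHS
import Pool.Agent.Helper96.JZ.LMF
import Pool.Agent.Helper96.JZ.MSF
import Pool.Agent.Helper96.JZ.NTF
import Pool.Agent.Helper96.JZ.QBZ
import Pool.Agent.Helper97.JZ.JTP
import Pool.Agent.Helper97.JZ.STA4
import Pool.Agent.Helper98.JZ.EQA
import Pool.Agent.Helper98.JZ.PRB
import Pool.Agent.Helper98.JZ.PRJ
import Pool.Agent.Helper98.JZ.QLU

/-!
All the modules of the theorem on uniquely ergodic skew products put together.
-/

namespace Pool.Agent.Helper40.JZ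

universe u

theorem all_TOR : ST_TOR := Pool.Agent.Helper67.JZ.st_TOR

theorem all_TCH : ST_TCH := st_TCH all_TOR

theorem all_ERG : ST_ERG := st_ERG

theorem all_MPZ : ST_MPZ := st_MPZ all_TOR

theorem all_POW : ST_POW := st_POW all_ERG

theorem all_COB : ST_COB := st_COB all_ERG

theorem all_LFR : ST_LFR := st_LFR all_TOR all_ERG all_MPZ all_POW

theorem all_PUR : ST_PUR := st_PUR all_TOR all_TCH all_ERG all_MPZ all_POW

theorem all_RCY : ST_RCY := st_RCY all_PUR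

theorem all_MSF : ST_MSF := st_MSF all_TOR

theorem all_PRJ : ST_PRJ := st_PRJ all_TOR all_MPZ all_MSF

theorem all_PRB : ST_PRB := st_PRB all_TOR all_MSF all_PRJ

theorem all_FIB : ST_FIB := Pool.Agent.Helper67.JZ.st_FIB

theorem all_NTF : ST_NTF := st_NTF all_TOR all_MSF all_FIB

theorem all_MPA : ST_MPA := Pool.Agent.Helper67.JZ.st_MPA all_FIB

theorem all_EQA : ST_EQA := st_EQA all_ERG all_POW all_COB

theorem all_JTP : ST_JTP := st_JTP all_COB

theorem all_RES : ST_RES := st_RES all_RCY all_LFR all_PRJ all_PRB all_JTP all_FIB all_NTF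
  all_EQA Pool.Agent.Helper40.DZ.all_EQR all_ERG all_MPZ all_TOR

theorem all_RTM : ST_RTM := st_RTM

theorem all_MTR : ST_MTR := st_MTR all_TOR all_FIB all_MSF

theorem all_NRT : ST_NRT := Pool.Agent.Helper67.JZ.st_NRT

theorem all_SKN : ST_SKN := Pool.Agent.Helper67.JZ.st_SKN all_TOR all_FIB all_NTF all_MPA all_RTM all_MTR all_NRT
  Pool.Agent.Helper40.DZ.all_NRV

theorem all_LCH : ST_LCH := st_LCH all_TOR all_TCH all_ERG

theorem all_CLF : ST_CLF := st_CLF all_TOR all_TCH all_LCH all_MSF all_FIB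

theorem all_EVC : ST_EVC := st_EVC Pool.Agent.Helper40.IZ.st_SPC

theorem all_QHS : ST_QHS := st_QHS all_TOR all_TCH all_ERG all_MSF all_EVC

theorem all_QBZ : ST_QBZ := st_QBZ all_TOR

theorem all_QLU : ST_QLU := st_QLU all_MSF all_FIB all_NTF all_QHS all_QBZ

theorem all_LMF : ST_LMF := st_LMF Pool.Agent.Helper40.DZ.all_KER

theorem all_CLS : ST_CLS := st_CLS all_LMF st_RBW

theorem all_STA4 : ST_STA4 := st_STA4 all_NTF all_SKN all_CLF all_QLU all_LMF all_CLS all_MPA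

theorem all_DOM : ST_DOM := st_DOM all_TOR all_TCH all_ERG all_MSF all_FIB all_LCH

theorem all_QLC : ST_QLC := st_QLC all_TOR all_MSF all_FIB all_NTF all_QBZ

theorem all_STC : ST_STC := st_STC all_NTF all_SKN all_LMF all_MPA all_DOM all_QLC

theorem all_STR4 : ST_STR4 := st_STR4 all_NTF all_SKN all_LMF all_MPA all_RES all_STA4 all_STC
  all_EQA Pool.Agent.Helper40.DZ.all_KER Pool.Agent.Helper40.DZ.all_EQR

theorem all_PTC4 : ST_PTC4 := st_PTC4 Pool.Agent.Helper16.BZ.all_KT2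
  Pool.Agent.Helper16.BZ.all_GAM2 Pool.Agent.Helper16.MD.all_WND

theorem all_THB4 : ST_THB4 := st_THB4 all_PTC4 Pool.Agent.Helper40.DZ.all_DEC3
  Pool.Agent.Helper40.DZ.all_PTB3

theorem all_ANZ : ST_ANZ := st_ANZ all_MPA all_EQA all_STR4 all_THB4

theorem all_UEN : ST_UEN := st_UEN all_FIB all_MPA

open Pool.Agent.Helper16.AZ (T)
open Pool.Agent.Helper16.CZP (Base Rot)

/-- part 1 -/
theorem all_one (X : Type) [MetricSpace X] [CompactSpace X] (r : ℕ) (π : X → T r)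
    (S : C(T r, T r)) (τ : X → X) (ρ : X → X → ℝ) (F : X → ℂ)
    (hI : Pool.Agent.Helper40.IZP.IsoExt π S τ ρ) (hA : JZP.Adm π S τ F) (x : X) :
    Pool.Agent.Helper40.DZP.Vanish τ F x :=
  fin_one all_UEN all_MPA all_EQA all_ANZ Pool.Agent.Helper40.IZ.all_FXR
    (fun X _ _ r π S τ ρ F hI hA x => Pool.Agent.Helper40.IZ.all_one X r π S τ ρ F hI hA x)
    X r π S τ ρ F hI hA x

/-- part 2 -/
theorem all_two (B : Type u) [CStarAlgebra B] (r : ℕ) (S : C(T r, T r)) (α : B →⋆ₐ[ℂ] B)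
    (π : C(T r, ℂ) →⋆ₐ[ℂ] B) (hS : (Base S ∨ JZP.Skew S) ∨ Pool.Agent.Helper40.DZP.ZeroEnt S)
    (hr : Rot S α π) (a : B)
    (ha : a ∈ closure (Submodule.span ℂ (Pool.Agent.Helper40.DZP.FamSet α π) : Set B)) :
    Pool.Agent.Helper40.Mob.TwistedDisjoint α a :=
  fin_two all_UEN all_MPA all_EQA all_ANZ Pool.Agent.Helper40.DZ.all_CSP4
    Pool.Agent.Helper40.DZ.all_GBS Pool.Agent.Helper40.DZ.all_ZEA B r S α π hS hr a ha

end Pool.Agent.Helper40.JZ
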