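import Pool.Agent.Helper40.DZ.Stmts

/-!
Two continuous levels: the base is a circle extension `(x, k) ↦ (x + θ, k + f x)` of a minimal
rotation of the torus with a continuous function `f`. Definitions for the modules
(MP_7a8f48_an).
-/

open Finset Filter MeasureTheory Topology
open scoped ComplexConjugate InnerProductSpace

namespace Pool.Agent.Helper40.JZ

open Pool.Agent.Helper16.AZ (T E Op mm fc Ind)
open Pool.Agent.Helper16.BZ (co Wk EE ff EQ)
open Pool.Agent.Helper16.MD (MS PB Am RW Rich)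
open Pool.Agent.Helper40.DZ (RI UR SK Good3)
open UnitAddTorus (mFourier)

/-- the circle -/
abbrev U : Type := UnitAddCircle

/-- the first `r` coordinates -/
def ini {r : ℕ} (y : T (r + 1)) : T r := fun i => y i.castSucc

/-- the last coordinate -/
def las {r : ℕ} (y : T (r + 1)) : U := y (Fin.last r)

/-- the point with first coordinates `x` and last coordinate `k` -/
def sn {r : ℕ} (x : T r) (k : U) : T (r + 1) := Fin.snoc (α := fun _ => U) x k

/-- the skew product `(x, k) ↦ (x + θ, k + f x)` -/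
def SA {r : ℕ} (θ : T r) (f : T r → U) (y : T (r + 1)) : T (r + 1) :=
  sn (ini y + θ) (las y + f (ini y))

/-- the cocycle `f x + f (x + θ) + ⋯ + f (x + (n - 1) θ)` -/
def cs {r : ℕ} (θ : T r) (f : T r → U) (n : ℕ) (x : T r) : U := ∑ j ∈ range n, f (x + j • θ)

/-- no multiple `a f`, `a ≠ 0`, is cohomologous to a constant -/
def NE {r : ℕ} (θ : T r) (f : T r → U) : Prop := ∀ a : ℤ, a ≠ 0 → ∀ (c : U) (u : T r → U),
  Measurable u → ¬ ∀ᵐ x ∂(mm r), a • f x + u (x + θ) = c + u x

/-- no multiple `a f`, `a ≠ 0`, is a coboundary -/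
def N0 {r : ℕ} (θ : T r) (f : T r → U) : Prop := ∀ a : ℤ, a ≠ 0 → ∀ u : T r → U,
  Measurable u → ¬ ∀ᵐ x ∂(mm r), a • f x + u (x + θ) = u x

/-- `w` is a transfer function which shows that `A f` is cohomologous to a constant -/
def Qc {r : ℕ} (θ : T r) (f : T r → U) (A : ℤ) (w : T r → U) : Prop :=
  A ≠ 0 ∧ Measurable w ∧ ∃ c : U, ∀ᵐ x ∂(mm r), A • f x + w (x + θ) = c + w x

/-- the points of the torus with `q x = 0` -/
noncomputable def tor (r q : ℕ) : Finset (T r) :=
  Fintype.piFinset fun _ : Fin r => (range q).image fun j : ℕ => (((j : ℝ) / (q : ℝ) : ℝ) : U)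

/-- `(x, k) ↦ (x + s, k + D s x / a)` is for `s ∈ tor r q` an action of `tor r q` which commutes
with the skew product (for the characters `e (j a k)`) -/
def Lift {r : ℕ} (θ : T r) (f : T r → U) (q : ℕ) (a : ℤ) (D : T r → T r → U) : Prop :=
  (∀ s ∈ tor r q, Measurable (D s)) ∧
  (∀ s ∈ tor r q, ∀ s' ∈ tor r q, ∀ᵐ x ∂(mm r), D (s + s') x = D s (x + s') + D s' x) ∧
  ∀ s ∈ tor r q, ∀ᵐ x ∂(mm r), D s (x + θ) + a • f x = a • f (x + s) + D s x

/-- the average of `e (j D s) g(· + s)` over `tor r q` -/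
noncomputable def pj {r : ℕ} (q : ℕ) (D : T r → T r → U) (j : ℤ) (g : T r → ℂ) (x : T r) : ℂ :=
  (∑ s ∈ tor r q, fourier j (D s x) * g (x + s)) / (q : ℂ) ^ r

/-- its square norm -/
noncomputable def ms {r : ℕ} (q : ℕ) (D : T r → T r → U) (j : ℤ) (g : T r → ℂ) : ℝ :=
  ∫ x, ‖pj q D j g x‖ ^ 2 ∂(mm r)

/-- the Fourier coefficients in the last coordinate -/
noncomputable def fib {r : ℕ} (G : T (r + 1) → ℂ) (a : ℤ) (x : T r) : ℂ :=
  ∫ k, fourier (-a) k * G (sn x k) ∂(AddCircle.haarAddCircle : Measure U)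

/-- types: `none` or `(a, D)` with a lift `D` for `a ≠ 0` -/
abbrev TY (r : ℕ) : Type := Option (ℤ × (T r → T r → U))

/-- admissible types -/
def OK {r : ℕ} (θ : T r) (f : T r → U) (q : ℕ) : TY r → Prop
  | none => True
  | some t => t.1 ≠ 0 ∧ Lift θ f q t.1 t.2

/-- the types which come from a transfer function `w` of `A f` -/
def Cn {r : ℕ} (A : ℤ) (w : T r → U) (q : ℕ) : TY r → Prop
  | none => True
  | some t => ∃ j : ℤ, j ∣ A ∧ j * t.1 = A * q ∧
    ∀ s ∈ tor r q, ∀ᵐ x ∂(mm r), j • t.2 s x = q • (w x - w (x + s))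

/-- the mass of a type -/
noncomputable def NT {r : ℕ} (q : ℕ) : TY r → (T (r + 1) → ℂ) → ℝ
  | none, G => ms q (fun _ _ => 0) 0 (fib G 0)
  | some t, G => ∑' j : ℤ, ms q t.2 j (fib G (j * t.1))

/-- resonances: `u` is a transfer function for `a f` on the first and `b f` on the second side -/
def Rs {r : ℕ} (θ : T r) (f : T r → U) (p q : ℕ) (x₀ : T r) (a b : ℤ) (u : T r → U) : Prop :=
  Measurable u ∧ ∀ᵐ z ∂(mm r), u (z + θ) + b • cs θ f q (x₀ + q • z) =
    a • cs θ f p (x₀ + p • z) + u z

/-! ### basic facts -/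

theorem NE.n0 {r : ℕ} {θ : T r} {f : T r → U} (h : NE θ f) : N0 θ f := by
  intro a ha u hu h1
  refine h a ha 0 u hu ?_
  filter_upwards [h1] with x hx
  rw [hx, zero_add]

theorem not_NE {r : ℕ} {θ : T r} {f : T r → U} (h : ¬ NE θ f) : ∃ A w, Qc θ f A w := by
  unfold NE at h
  push Not at h
  obtain ⟨A, hA, c, w, hw, h1⟩ := h
  exact ⟨A, w, hA, hw, c, h1⟩


section basic

variable {r : ℕ}

@[simp] theorem ini_sn (x : T r) (k : U) : ini (sn x k) = x := by
  funext i
  simp [ini, sn]

@[simp] theorem las_sn (x : T r) (k : U) : las (sn x k) = k := by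
  simp [las, sn]

@[simp] theorem sn_ini_las (y : T (r + 1)) : sn (ini y) (las y) = y := by
  funext i
  refine Fin.lastCases ?_ (fun j => ?_) i
  · simp [sn, las]
  · simp [sn, ini]

theorem SA_sn (θ : T r) (f : T r → U) (x : T r) (k : U) :
    SA θ f (sn x k) = sn (x + θ) (k + f x) := by
  simp [SA]

theorem cs_zero (θ : T r) (f : T r → U) (x : T r) : cs θ f 0 x = 0 := by simp [cs]

theorem cs_succ (θ : T r) (f : T r → U) (n : ℕ) (x : T r) :
    cs θ f (n + 1) x = cs θ f n x + f (x + n • θ) := by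
  simp [cs, sum_range_succ]

theorem cs_add (θ : T r) (f : T r → U) (m n : ℕ) (x : T r) :
    cs θ f (m + n) x = cs θ f m x + cs θ f n (x + m • θ) := by
  induction n with
  | zero => simp [cs_zero]
  | succ n ih =>
    rw [← add_assoc, cs_succ, ih, cs_succ, add_assoc]
    congr 3
    rw [add_smul, add_assoc]

theorem SA_iterate (θ : T r) (f : T r → U) (n : ℕ) (x : T r) (k : U) :
    (SA θ f)^[n] (sn x k) = sn (x + n • θ) (k + cs θ f n x) := by
  induction n with
  | zero => simp [cs_zero]
  | succ n ih =>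
    rw [Function.iterate_succ_apply', ih, SA_sn, cs_succ, succ_nsmul, add_assoc, add_assoc]

theorem continuous_ini : Continuous (ini : T (r + 1) → T r) := by
  unfold ini
  fun_prop

theorem continuous_las : Continuous (las : T (r + 1) → U) := by
  unfold las
  fun_prop

theorem continuous_sn : Continuous (fun z : T r × U => sn z.1 z.2) := by
  refine continuous_pi fun i => ?_
  refine Fin.lastCases ?_ (fun j => ?_) i
  · simp only [sn, Fin.snoc_last]
    exact continuous_snd
  · simp only [sn, Fin.snoc_castSucc]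
    exact (continuous_apply j).comp continuous_fst

theorem continuous_SA (θ : T r) {f : T r → U} (hf : Continuous f) : Continuous (SA θ f) := by
  have h1 : Continuous fun y : T (r + 1) => (ini y + θ, las y + f (ini y)) :=
    (continuous_ini.add continuous_const).prodMk
      (continuous_las.add (hf.comp continuous_ini))
  exact continuous_sn.comp h1

end basic

end Pool.Agent.Helper40.JZ
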