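import Pool.Agent.Helper40.JZ.UEN
import Pool.Agent.Helper40.IZ.Fin

/-!
The last step: from the statements of the modules to the hand-in (uniquely ergodic skew products).
-/

open Finset Filter MeasureTheory Topology
open scoped ArithmeticFunction.Moebius

namespace Pool.Agent.Helper40.JZ

open Pool.Agent.Helper16.AZ (T E Op mm Ind)
open Pool.Agent.Helper16.BZ (EQ)
open Pool.Agent.Helper40.DZ (Good3 ST_GBS ST_ZEA ST_CSP4 base_EQ good_c)
open Pool.Agent.Helper16.CZP (Base Rot)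
open Pool.Agent.Helper40.JZP (Skew)
open Pool.Agent.Helper40.IZP (IsoExt FibreCts)
open Pool.Agent.Helper40.IZ (ST_FXC ST_FXR ST_ZEX base_MP)
open Pool.Agent.Helper40.Mob (TwistedDisjoint)

universe u

theorem skew_good (hUEN : ST_UEN) (hMPA : ST_MPA) (hEQA : ST_EQA) (hANZ : ST_ANZ) {r : ℕ}
    (S : C(UnitAddTorus (Fin r), UnitAddTorus (Fin r))) (h : Skew S) :
    Good3 (S : T r → T r) ∧ EQ S (mm r) ∧ MeasurePreserving S (mm r) (mm r) := by
  cases r with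
  | zero => exact absurd h (by simp [Skew])
  | succ r =>
    obtain ⟨θ, f, hf, hS, hθ, h0⟩ := hUEN r S h
    have h1 : (S : T (r + 1) → T (r + 1)) = SA θ f := funext hS
    rw [h1]
    exact ⟨hANZ r θ f hθ hf h0, hEQA r θ f hθ hf h0, (hMPA r θ f hf).1⟩

/-- part 1 -/
theorem fin_one (hUEN : ST_UEN) (hMPA : ST_MPA) (hEQA : ST_EQA) (hANZ : ST_ANZ)
    (hFXR : ST_FXR)
    (hOld : ∀ (X : Type) [MetricSpace X] [CompactSpace X] (r : ℕ) (π : X → T r)
      (S : C(T r, T r)) (τ : X → X) (ρ : X → X → ℝ) (F : X → ℂ), IsoExt π S τ ρ →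
      Pool.Agent.Helper40.IZP.Adm π S τ F → ∀ x : X, Pool.Agent.Helper40.DZP.Vanish τ F x)
    (X : Type) [MetricSpace X] [CompactSpace X] (r : ℕ) (π : X → UnitAddTorus (Fin r))
    (S : C(UnitAddTorus (Fin r), UnitAddTorus (Fin r))) (τ : X → X) (ρ : X → X → ℝ)
    (F : X → ℂ) (hI : IsoExt π S τ ρ) (hA : JZP.Adm π S τ F) (x : X) :
    Pool.Agent.Helper40.DZP.Vanish τ F x := by
  rcases hA with ⟨hB | hB, hτ, hF, hC⟩ | h
  · exact hOld X r π S τ ρ F hI (Or.inl ⟨hB, hτ, hF, hC⟩) x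
  · obtain ⟨C, hC⟩ := hC
    obtain ⟨h1, h2, h3⟩ := skew_good hUEN hMPA hEQA hANZ S hB
    exact hFXR X r π S τ ρ hI h1 h2 S.continuous h3 hτ F C hC hF x
  · exact hOld X r π S τ ρ F hI (Or.inr h) x

/-- part 2 -/
theorem fin_two (hUEN : ST_UEN) (hMPA : ST_MPA) (hEQA : ST_EQA) (hANZ : ST_ANZ)
    (hCSP : ST_CSP4.{u}) (hG : ST_GBS) (hZ : ST_ZEA)
    (B : Type u) [CStarAlgebra B] (r : ℕ) (S : C(UnitAddTorus (Fin r), UnitAddTorus (Fin r)))
    (α : B →⋆ₐ[ℂ] B) (π : C(UnitAddTorus (Fin r), ℂ) →⋆ₐ[ℂ] B)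
    (hS : (Base S ∨ Skew S) ∨ Pool.Agent.Helper40.DZP.ZeroEnt S) (hr : Rot S α π) (a : B)
    (ha : a ∈ closure (Submodule.span ℂ (Pool.Agent.Helper40.DZP.FamSet α π) : Set B)) :
    TwistedDisjoint α a := by
  rcases hS with (hS | hS) | hS
  · exact Pool.Agent.Helper40.DZ.fin_two hCSP hG hZ B r S α π (Or.inl hS) hr a ha
  · exact hCSP B r S α π (good_c (skew_good hUEN hMPA hEQA hANZ S hS).1) hr a ha
  · exact Pool.Agent.Helper40.DZ.fin_two hCSP hG hZ B r S α π (Or.inr hS) hr a ha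

end Pool.Agent.Helper40.JZ
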